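import Pool.Agent.Lib.MP_abd978_an.UN.H15.Push
import Pool.Agent.Lib.MP_abd978_an.UN.H30.LL
import Pool.Agent.Lib.MP_abd978_an.UN.H10.Lin

/-!
# TYX: the transferred function and the transferred gradient
-/

set_option autoImplicit false

open MeasureTheory Metric Set Filter Topology ContDiff
open scoped Gradient RealInnerProductSpace NNReal ENNReal

namespace Pool.Agent.Lib.MP_abd978_an.UN.H15

variable {n : ℕ}

theorem measurable_inverse :
    Measurable (ContinuousLinearMap.inverse : (E n →L[ℝ] E n) → (E n →L[ℝ] E n)) := by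
  classical
  set s : Set (E n →L[ℝ] E n) := range ((↑) : (E n ≃L[ℝ] E n) → E n →L[ℝ] E n) with hs
  have ho : IsOpen s := ContinuousLinearEquiv.isOpen
  have h1 : ContinuousOn (ContinuousLinearMap.inverse : (E n →L[ℝ] E n) → (E n →L[ℝ] E n)) s := by
    rintro _ ⟨e, rfl⟩
    exact (contDiffAt_map_inverse (n := 1) e).continuousAt.continuousWithinAt
  have h2 : Measurable (s.piecewise
      (ContinuousLinearMap.inverse : (E n →L[ℝ] E n) → (E n →L[ℝ] E n)) fun _ => 0) :=
    h1.measurable_piecewise continuousOn_const ho.measurableSet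
  convert h2 using 1
  funext A
  by_cases hA : A ∈ s
  · rw [piecewise_eq_of_mem _ _ _ hA]
  · rw [piecewise_eq_of_notMem _ _ _ hA]
    refine ContinuousLinearMap.inverse_of_not_isInvertible fun h => hA ?_
    obtain ⟨e, he⟩ := h
    exact ⟨e, he⟩

theorem measurable_grad' (F : E n → ℝ) : Measurable fun x => ∇ F x :=
  (InnerProductSpace.toDual ℝ (E n)).symm.continuous.measurable.comp (measurable_fderiv ℝ F)

theorem measurable_Dt' (f : E n → E n) : Measurable fun x => Dt f x :=
  (ContinuousLinearMap.adjoint (𝕜 := ℝ) (E := E n) (F := E n)).continuous.measurable.comp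
    (measurable_fderiv ℝ f)

theorem measurable_k (f : E n → E n) {m : E n → ℝ} (hm : Measurable m) (φ : E n → ℝ) :
    Measurable fun x => m x • (Dt f x).inverse (∇ φ x) := by
  refine hm.smul ?_
  have h1 : Measurable fun x => (Dt f x).inverse := measurable_inverse.comp (measurable_Dt' f)
  have h2 : Continuous fun q : (E n →L[ℝ] E n) × E n => q.1 q.2 := by fun_prop
  exact h2.measurable.comp (h1.prodMk (measurable_grad' φ))

theorem grad_comp_map {f : E n → E n} {q : E n → ℝ} {x : E n} (hf : DifferentiableAt ℝ f x)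
    (hq : DifferentiableAt ℝ q (f x)) : ∇ (fun y => q (f y)) x = Dt f x (∇ q (f x)) := by
  refine ext_inner_right ℝ fun v => ?_
  unfold Dt
  rw [grad_eq, InnerProductSpace.toDual_symm_apply, ContinuousLinearMap.adjoint_inner_left,
    grad_eq, InnerProductSpace.toDual_symm_apply]
  rw [show (fun y => q (f y)) = q ∘ f from rfl, fderiv_comp x hq hf]
  rfl

theorem isSob_congr {μ : Measure (E n)} {p : ℝ} {D : Set (E n)} {u : E n → ℝ}
    {v v' : E n → E n} (h : IsSob μ p D u v) (hv : v =ᵐ[μ.restrict D] v') :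
    IsSob μ p D u v' := by
  obtain ⟨h1, h2, φ, h3, h4, h5⟩ := h
  refine ⟨h1, (memLp_congr_ae hv).1 h2, φ, h3, h4, ?_⟩
  refine h5.congr fun i => eLpNorm_congr_ae ?_
  filter_upwards [hv] with x hx
  rw [hx]

/-- the gradient restricted to a smaller set, measurable -/
theorem exists_mk {p : ℝ} {a : E n → E n → E n} {V : Set (E n)} {u : E n → ℝ} {U : E n → E n}
    {ψ : E n → ℝ} (hV : IsOpen V) (hLS : LocSob volume p V u U) (hE : Eqn volume a V U)
    (hψ : Test V ψ) : ∃ (D : Set (E n)) (U' : E n → E n), IsOpen D ∧ D ⊆ V ∧ Test D ψ ∧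
      Measurable U' ∧ MemLp U' (ENNReal.ofReal p) volume ∧ (∀ᵐ z : E n, z ∈ D → U' z = U z) ∧
      LocSob volume p D u U' ∧ Eqn volume a D U' := by
  obtain ⟨D, hD1, hD2, hD3, hD4⟩ := exists_open_between_and_isCompact_closure hψ.2.1 hV hψ.2.2
  have hS := hLS D hD1 hD4 hD3
  have hm := hS.2.1.1
  set g := hm.mk U with hg
  have hgU : U =ᵐ[volume.restrict D] g := hm.ae_eq_mk
  have hUU : ∀ᵐ z : E n, z ∈ D → D.indicator g z = U z := by
    have h1 := (ae_restrict_iff' hD1.measurableSet).1 hgU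
    filter_upwards [h1] with z hz hzD
    rw [indicator_of_mem hzD, hz hzD]
  have hDV : D ⊆ V := subset_closure.trans hD3
  refine ⟨D, D.indicator g, hD1, hDV, ⟨hψ.1, hψ.2.1, hD2⟩,
    hm.stronglyMeasurable_mk.measurable.indicator hD1.measurableSet, ?_, hUU, ?_, ?_⟩
  · rw [memLp_indicator_iff_restrict hD1.measurableSet]
    exact (memLp_congr_ae hgU).1 hS.2.1
  · intro G hG1 hG2 hG3
    refine isSob_congr (hLS G hG1 hG2 (hG3.trans hDV)) ?_
    have h1 : ∀ᵐ z ∂(volume.restrict G), z ∈ D → D.indicator g z = U z := ae_restrict_of_ae hUU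
    have h2 : ∀ᵐ z ∂(volume.restrict G), z ∈ G := ae_restrict_mem hG1.measurableSet
    filter_upwards [h1, h2] with z hz hz2
    exact (hz (hG3 (subset_closure hz2))).symm
  · intro φ hφ
    rw [← hE φ (hφ.mono hDV)]
    refine integral_congr_ae ?_
    filter_upwards [hUU] with z hz
    by_cases hzD : z ∈ D
    · rw [hz hzD]
    · rw [grad_eq_zero_of_notMem fun h => hzD (hφ.2.2 h), inner_zero_right, inner_zero_right]

theorem vec_sum (v : E n) : v = ∑ j : Fin n, (max (v j) 0 - max (-(v j)) 0) •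
    EuclideanSpace.single j (1 : ℝ) := by
  ext i
  simp only [max_zero_sub_max_neg_zero_eq_self]
  simp [Pi.single_apply]

theorem inner_sum' (v w : E n) : ⟪v, w⟫ = ∑ j : Fin n, (v j * max (w j) 0 -
    v j * max (-(w j)) 0) := by
  conv_lhs => rw [vec_sum w]
  rw [inner_sum]
  refine Finset.sum_congr rfl fun j _ => ?_
  rw [← mul_sub, max_zero_sub_max_neg_zero_eq_self, inner_smul_right,
    EuclideanSpace.inner_single_right]
  simp
  ring

/-- the pointwise identity -/
theorem point {p c C β' : ℝ} {a b : E n → E n → E n} {f : E n → E n} {m : E n → ℝ} {x ξ v w : E n}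
    {s t : ℝ} (hp : 1 < p) (hb : ∀ x ξ, ‖b x ξ‖ ≤ β' * ‖ξ‖ ^ (p - 1)) (hc : 0 < c)
    (h1 : ∀ η, c * ‖fderiv ℝ f x‖ * ‖η‖ ≤ ‖Dt f x η‖) (h2 : c * ‖fderiv ℝ f x‖ ^ p ≤ m x)
    (h3 : m x ≤ C * ‖fderiv ℝ f x‖ ^ p)
    (h4 : ∀ ξ, fderiv ℝ f x (b x (Dt f x ξ)) = m x • a (f x) ξ) (ht : 0 ≤ t) :
    ⟪b x (Dt f x ξ), s • v + t • Dt f x w⟫ = ⟪a (f x) ξ, w⟫ * max (m x * t) 0 +
      ⟪s • a (f x) ξ, m x • (Dt f x).inverse v⟫ := by
  have hm0 : 0 ≤ m x := le_trans (by positivity) h2
  rw [max_eq_left (mul_nonneg hm0 ht)]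
  have e1 : ∀ y : E n, ⟪b x (Dt f x ξ), Dt f x y⟫ = m x * ⟪a (f x) ξ, y⟫ := by
    intro y
    have h5 : ⟪b x (Dt f x ξ), Dt f x y⟫ = ⟪fderiv ℝ f x (b x (Dt f x ξ)), y⟫ :=
      ContinuousLinearMap.adjoint_inner_right _ _ _
    rw [h5, h4 ξ, real_inner_smul_left]
  by_cases hz : fderiv ℝ f x = 0
  · have hm : m x = 0 := by
      rw [hz, norm_zero, Real.zero_rpow (by linarith : p ≠ 0), mul_zero] at h3
      exact le_antisymm h3 hm0
    have hD : Dt f x = 0 := by
      unfold Dt
      rw [hz, map_zero]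
    have hb0 : b x 0 = 0 := by
      have h5 := hb x 0
      rw [norm_zero, Real.zero_rpow (by linarith : p - 1 ≠ 0), mul_zero] at h5
      exact norm_le_zero_iff.1 h5
    rw [hD, hm]
    simp [hb0]
  · have hpos : 0 < c * ‖fderiv ℝ f x‖ := mul_pos hc (norm_pos_iff.2 hz)
    have hbij := H10.bij_of_lower hpos h1
    set e := ContinuousLinearEquiv.ofBijective (Dt f x) (LinearMap.ker_eq_bot.2 hbij.1)
      (LinearMap.range_eq_top.2 hbij.2) with he
    have he2 : (e : E n →L[ℝ] E n) = Dt f x :=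
      ContinuousLinearEquiv.coe_ofBijective _ _ _
    have h6 : Dt f x ((Dt f x).inverse v) = v := by
      rw [← he2, ContinuousLinearMap.inverse_equiv]
      exact e.apply_symm_apply v
    rw [inner_add_right, inner_smul_right, inner_smul_right, e1 w]
    conv_lhs => rw [← h6]
    rw [e1, real_inner_smul_left, real_inner_smul_right]
    ring

/-- the size of `m L^{-T} v` -/
theorem norm_k_le {p c C : ℝ} {f : E n → E n} {m : E n → ℝ} {x v : E n}
    (hp : 1 < p) (hc : 0 < c)
    (h1 : ∀ η, c * ‖fderiv ℝ f x‖ * ‖η‖ ≤ ‖Dt f x η‖) (h2 : c * ‖fderiv ℝ f x‖ ^ p ≤ m x)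
    (h3 : m x ≤ C * ‖fderiv ℝ f x‖ ^ p) :
    ‖m x • (Dt f x).inverse v‖ ≤ C / c * ‖v‖ * ‖fderiv ℝ f x‖ ^ (p - 1) := by
  have hm0 : 0 ≤ m x := le_trans (by positivity) h2
  by_cases hz : fderiv ℝ f x = 0
  · have hm : m x = 0 := by
      rw [hz, norm_zero, Real.zero_rpow (by linarith : p ≠ 0), mul_zero] at h3
      exact le_antisymm h3 hm0
    rw [hm, zero_smul, norm_zero, hz, norm_zero, Real.zero_rpow (by linarith : p - 1 ≠ 0),
      mul_zero]
  · have hw : 0 < ‖fderiv ℝ f x‖ := norm_pos_iff.2 hz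
    have hpos : 0 < c * ‖fderiv ℝ f x‖ := mul_pos hc hw
    have hbij := H10.bij_of_lower hpos h1
    set e := ContinuousLinearEquiv.ofBijective (Dt f x) (LinearMap.ker_eq_bot.2 hbij.1)
      (LinearMap.range_eq_top.2 hbij.2) with he
    have he2 : (e : E n →L[ℝ] E n) = Dt f x :=
      ContinuousLinearEquiv.coe_ofBijective _ _ _
    have h6 : Dt f x ((Dt f x).inverse v) = v := by
      rw [← he2, ContinuousLinearMap.inverse_equiv]
      exact e.apply_symm_apply v
    have h7 := h1 ((Dt f x).inverse v)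
    rw [h6] at h7
    rw [norm_smul, Real.norm_eq_abs, abs_of_nonneg hm0]
    have h8 : ‖(Dt f x).inverse v‖ ≤ ‖v‖ / (c * ‖fderiv ℝ f x‖) := by
      rw [le_div_iff₀ hpos]
      linarith
    have hC : 0 ≤ C := by
      have h9 : 0 < ‖fderiv ℝ f x‖ ^ p := Real.rpow_pos_of_pos hw p
      by_contra hcon
      push Not at hcon
      nlinarith
    calc m x * ‖(Dt f x).inverse v‖ ≤ (C * ‖fderiv ℝ f x‖ ^ p) *
          (‖v‖ / (c * ‖fderiv ℝ f x‖)) := by gcongr
      _ = C / c * ‖v‖ * ‖fderiv ℝ f x‖ ^ (p - 1) := by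
          rw [Real.rpow_sub_one hw.ne']
          field_simp

theorem tyx (hC : ChainfStatement) (hL : LtestStatement) (hU : UniqStatement)
    (hI : IntgStatement) : TyxStatement := by
  intro n p a α β b α' β' D Ω f m c C hM hR φ hφ0 hφ
  have hn : 1 ≤ n := by have := D.hn; omega
  have hp : 1 < p := D.opa.hp
  have hp0 : 0 < p := by linarith
  have hφ' := hφ
  obtain ⟨⟨Kφ, hKφ⟩, hφc, hφΩ⟩ := hφ'
  set K := tsupport φ with hK
  have hfK : ContinuousOn f K := hM.cont.mono hφΩ
  obtain ⟨R, hR0, hfR⟩ : ∃ R : ℝ, 0 < R ∧ ∀ x ∈ K, ‖f x‖ < R := by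
    obtain ⟨R, hR⟩ := (IsCompact.image_of_continuousOn hφc hfK).isBounded.exists_norm_le
    refine ⟨|R| + 1, by positivity, fun x hx => ?_⟩
    have h1 := hR _ (mem_image_of_mem f hx)
    have h2 := le_abs_self R
    linarith
  obtain ⟨C', hed⟩ := hR.ed K hφc hφΩ
  have P : PD p f (fun x => ‖fderiv ℝ f x‖) K R C' :=
    ⟨hp, hM.meas, (measurable_fderiv ℝ f).norm, fun x => norm_nonneg _, hφc, hR0, hfR, hed⟩
  obtain ⟨Mφ, hMφ⟩ : ∃ M : ℝ, ∀ x, |φ x| ≤ M := by
    obtain ⟨M, h⟩ := hφc.exists_bound_of_continuous hKφ.continuous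
    exact ⟨M, h⟩
  have hMφ0 : 0 ≤ Mφ := (abs_nonneg _).trans (hMφ 0)
  have hgφ : ∀ x, ‖∇ φ x‖ ≤ Kφ := fun x => by
    rw [norm_grad]
    exact norm_fderiv_le_of_lipschitz ℝ hKφ
  have hgφ0 : ∀ x, x ∉ K → ∇ φ x = 0 := fun x hx => grad_eq_zero_of_notMem hx
  have hφ00 : ∀ x, x ∉ K → φ x = 0 := fun x hx => image_eq_zero_of_notMem_tsupport hx
  -- the vector field on the source
  set k : E n → E n := fun x => m x • (Dt f x).inverse (∇ φ x) with hk
  have hkm : Measurable k := measurable_k f hR.measm φ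
  have hk0 : ∀ x, x ∉ K → k x = 0 := fun x hx => by
    rw [hk]
    simp [hgφ0 x hx]
  have hM1 : 0 ≤ C / c * Kφ := by
    have := hR.hc
    have := hR.hC
    positivity
  have hkb : ∀ᵐ x : E n, ‖k x‖ ≤ C / c * Kφ * ‖fderiv ℝ f x‖ ^ (p - 1) := by
    filter_upwards [hR.dist, hR.lower, hR.upper] with x h1 h2 h3
    by_cases hx : x ∈ K
    · have hxΩ := hφΩ hx
      refine (norm_k_le hp hR.hc (h1 hxΩ) (h2 hxΩ) (h3 hxΩ)).trans ?_
      have := hR.hc
      have := hR.hC
      have := hgφ x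
      gcongr
    · rw [hk0 x hx, norm_zero]
      positivity
  -- the function `T`
  have hTb : ∀ᵐ x : E n, max (m x * φ x) 0 ≤ C * Mφ * ‖fderiv ℝ f x‖ ^ p := by
    have hC := hR.hC
    filter_upwards [hR.lower, hR.upper] with x h2 h3
    by_cases hx : x ∈ K
    · have hxΩ := hφΩ hx
      refine max_le ?_ (by positivity)
      calc m x * φ x ≤ (C * ‖fderiv ℝ f x‖ ^ p) * φ x :=
            mul_le_mul_of_nonneg_right (h3 hxΩ) (hφ0 x)
        _ ≤ (C * ‖fderiv ℝ f x‖ ^ p) * Mφ := by
            gcongr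
            exact (le_abs_self _).trans (hMφ x)
        _ = C * Mφ * ‖fderiv ℝ f x‖ ^ p := by ring
    · rw [hφ00 x hx, mul_zero, max_self]
      positivity
  obtain ⟨T, hT1, hT2, hT3, hT4⟩ := P.pushT (M := C * Mφ) (by have := hR.hC; positivity)
    (h := fun x => max (m x * φ x) 0) ((hR.measm.mul hKφ.continuous.measurable).max
      measurable_const) (fun x => le_max_right _ _) (fun x hx => by simp [hφ00 x hx]) hTb
  -- the vector field `Y`
  have hYp : ∀ j : Fin n, ∃ t : E n → ℝ, Measurable t ∧ MemLp t (ENNReal.ofReal p) volume ∧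
      (∀ z, R ≤ ‖z‖ → t z = 0) ∧
      ∀ G : E n → ℝ, Measurable G → (Integrable (fun z => G z * t z) ↔
        Integrable fun x => G (f x) * max (k x j) 0) ∧
        ∫ z, G z * t z = ∫ x, G (f x) * max (k x j) 0 := by
    intro j
    refine P.pushY hM1 (((EuclideanSpace.proj (𝕜 := ℝ) j).continuous.measurable.comp hkm).max
      measurable_const) (fun x => le_max_right _ _) (fun x hx => by simp [hk0 x hx]) ?_
    filter_upwards [hkb] with x hx
    refine max_le ?_ (by positivity)
    exact ((le_abs_self _).trans (PiLp.norm_apply_le (k x) j)).trans hx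
  have hYm : ∀ j : Fin n, ∃ t : E n → ℝ, Measurable t ∧ MemLp t (ENNReal.ofReal p) volume ∧
      (∀ z, R ≤ ‖z‖ → t z = 0) ∧
      ∀ G : E n → ℝ, Measurable G → (Integrable (fun z => G z * t z) ↔
        Integrable fun x => G (f x) * max (-(k x j)) 0) ∧
        ∫ z, G z * t z = ∫ x, G (f x) * max (-(k x j)) 0 := by
    intro j
    refine P.pushY hM1 (((EuclideanSpace.proj (𝕜 := ℝ) j).continuous.measurable.comp hkm).neg.max
      measurable_const) (fun x => le_max_right _ _) (fun x hx => by simp [hk0 x hx]) ?_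
    filter_upwards [hkb] with x hx
    refine max_le ?_ (by positivity)
    exact ((neg_le_abs _).trans (PiLp.norm_apply_le (k x) j)).trans hx
  choose tp htp1 htp2 htp3 htp4 using hYp
  choose tm htm1 htm2 htm3 htm4 using hYm
  set Y : E n → E n := fun z => ∑ j : Fin n, (tp j z - tm j z) •
    EuclideanSpace.single j (1 : ℝ) with hY
  have hinY : ∀ (v : E n) (z : E n), ⟪v, Y z⟫ = ∑ j : Fin n, (v j * tp j z - v j * tm j z) := by
    intro v z
    rw [hY, inner_sum]
    refine Finset.sum_congr rfl fun j _ => ?_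
    rw [inner_smul_right, EuclideanSpace.inner_single_right]
    simp
    ring
  refine ⟨T, Y, R, ⟨hT1, ⟨_, hT2⟩, ?_, hR0, ?_, ?_⟩, ?_⟩
  · -- `Y` is in `L^p`
    refine memLp_finsetSum _ fun j _ => ?_
    exact (ContinuousLinearMap.toSpanSingleton ℝ (EuclideanSpace.single j (1 : ℝ))).comp_memLp'
      ((htp2 j).sub (htm2 j))
  · intro z hz
    refine ⟨hT3 z hz, ?_⟩
    rw [hY]
    simp [fun j => htp3 j z hz, fun j => htm3 j z hz]
  · -- the main property
    intro V u U₀ ψ hV hu hLS hE hψ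
    obtain ⟨D₀, U, hD1, hD2, hψD, hUm, hUp, hUU, hLS', hE'⟩ := exists_mk hV hLS hE hψ
    have hcu : ContinuousOn u D₀ := hu.mono hD2
    have hop : IsOpen (Ω ∩ f ⁻¹' D₀) := hM.cont.isOpen_inter_preimage hM.isOpen hD1
    obtain ⟨-, v, hv1, hv2⟩ := hM.mor D₀ u hD1 ⟨hcu, U, hLS', hE'⟩
    have hch := hC n p a b Ω f m c C D₀ u U hn D.hp hR hD1 hcu hLS'
    have huq := hU n p (Ω ∩ f ⁻¹' D₀) (u ∘ f) v _ hp hop hv1 hch
    -- the test function
    have hΦ1 : LipC Ω fun x => ψ (f x) * φ x := by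
      refine H30.LipC.mul_left (fun x hx => ?_) hφ
      obtain ⟨K', U', hU', hK'⟩ := hR.loclip x hx
      obtain ⟨Kψ, hKψ⟩ : ∃ Kψ : ℝ≥0, LipschitzWith Kψ ψ :=
        hψ.1.lipschitzWith_of_hasCompactSupport hψ.2.1 (by simp)
      exact H30.LLip.comp hKψ ⟨K', U', hU', hK'⟩
    have hΦK : tsupport (fun x => ψ (f x) * φ x) ⊆ K :=
      closure_mono (Function.support_mul_subset_right _ φ)
    have hΦ2 : tsupport (fun x => ψ (f x) * φ x) ⊆ Ω ∩ f ⁻¹' D₀ := by
      refine subset_inter (hΦK.trans hφΩ) ?_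
      have h1 : IsClosed (K ∩ f ⁻¹' tsupport ψ) :=
        hfK.preimage_isClosed_of_isClosed (isClosed_tsupport φ) (isClosed_tsupport ψ)
      have h2 : tsupport (fun x => ψ (f x) * φ x) ⊆ K ∩ f ⁻¹' tsupport ψ := by
        refine closure_minimal ?_ h1
        intro x hx
        have h3 : ψ (f x) * φ x ≠ 0 := hx
        exact ⟨subset_tsupport _ (right_ne_zero_of_mul h3),
          subset_tsupport _ (left_ne_zero_of_mul h3)⟩
      exact h2.trans (inter_subset_right.trans (preimage_mono hψD.2.2))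
    have key := hL n p b α' β' (Ω ∩ f ⁻¹' D₀) (u ∘ f) v _ D.opb hop hv1 hv2
      ⟨hΦ1.1, hΦ1.2.1, hΦ2⟩
    have haU : Measurable fun z => a z (U z) :=
      D.opa.meas.comp (measurable_id.prodMk hUm)
    -- the pointwise identity
    have hpt : ∀ᵐ x : E n, ⟪b x (v x), ∇ (fun x => ψ (f x) * φ x) x⟫ =
        ⟪a (f x) (U (f x)), ∇ ψ (f x)⟫ * max (m x * φ x) 0 +
          ⟪ψ (f x) • a (f x) (U (f x)), k x⟫ := by
      filter_upwards [hR.diff, hR.dist, hR.lower, hR.upper, hR.fr, hKφ.ae_differentiableAt,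
        huq] with x h1 h2 h3 h4 h5 h6 h7
      by_cases hx : x ∈ K
      · have hxΩ := hφΩ hx
        have hψd : DifferentiableAt ℝ ψ (f x) := hψ.1.differentiable (by simp) _
        have hcomp : DifferentiableAt ℝ (fun y => ψ (f y)) x := hψd.comp x (h1 hxΩ)
        rw [grad_mul hcomp h6, grad_comp_map (h1 hxΩ) hψd]
        by_cases hfx : f x ∈ D₀
        · rw [h7 ⟨hxΩ, hfx⟩]
          exact point hp D.opb.bdd hR.hc (h2 hxΩ) (h3 hxΩ) (h4 hxΩ) (h5 hxΩ) (hφ0 x)
        · have h8 : f x ∉ tsupport ψ := fun h => hfx (hψD.2.2 h)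
          rw [image_eq_zero_of_notMem_tsupport h8, grad_eq_zero_of_notMem h8]
          simp
      · rw [grad_eq_zero_of_notMem fun h => hx (hΦK h), hφ00 x hx, hk0 x hx]
        simp
    -- integrability
    have hψp : MemLp (fun z => ∇ ψ z) (ENNReal.ofReal p) volume := hψ.memLp_grad _
    obtain ⟨Cψ, hCψ0, hCψ1, hCψ2⟩ := hψ.exists_bound
    have hT5 : MemLp (fun z => T z • ∇ ψ z) (ENNReal.ofReal p) volume := by
      refine hψp.of_le_mul (c := C * Mφ * C') ?_ ?_
      · exact (hT1.smul (measurable_grad' ψ)).aestronglyMeasurable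
      · refine Eventually.of_forall fun z => ?_
        rw [norm_smul, Real.norm_eq_abs]
        exact mul_le_mul_of_nonneg_right (hT2 z) (norm_nonneg _)
    have hiT : Integrable fun z => ⟪a z (U z), ∇ ψ z⟫ * T z := by
      have h1 := (hI n p volume volume a α β U _ D.opa hUp hT5).1
      refine h1.congr (Eventually.of_forall fun z => ?_)
      show ⟪a z (U z), T z • ∇ ψ z⟫ = _
      rw [inner_smul_right, mul_comm]
    have hgT : Measurable fun z => ⟪a z (U z), ∇ ψ z⟫ := haU.inner (measurable_grad' ψ)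
    have hiT' := ((hT4 _ hgT).1).1 hiT
    have hgB : ∀ j : Fin n, Measurable fun z => (ψ z • a z (U z)) j := fun j =>
      (EuclideanSpace.proj (𝕜 := ℝ) j).continuous.measurable.comp
        (hψ.1.continuous.measurable.smul haU)
    have hiB : ∀ (j : Fin n) (t : E n → ℝ), Measurable t → MemLp t (ENNReal.ofReal p) volume →
        Integrable fun z => (ψ z • a z (U z)) j * t z := by
      intro j t ht1 ht2
      have h2 : MemLp (fun z => (ψ z * t z) • EuclideanSpace.single j (1 : ℝ))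
          (ENNReal.ofReal p) volume := by
        refine ht2.of_le_mul (c := Cψ) ?_ ?_
        · exact ((hψ.1.continuous.measurable.mul ht1).smul_const _).aestronglyMeasurable
        · refine Eventually.of_forall fun z => ?_
          rw [norm_smul, PiLp.norm_single, norm_one, mul_one, norm_mul]
          exact mul_le_mul_of_nonneg_right (hCψ1 z) (norm_nonneg _)
      have h1 := (hI n p volume volume a α β U _ D.opa hUp h2).1
      refine h1.congr (Eventually.of_forall fun z => ?_)
      show ⟪a z (U z), (ψ z * t z) • EuclideanSpace.single j (1 : ℝ)⟫ = _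
      rw [inner_smul_right, EuclideanSpace.inner_single_right]
      simp
      ring
    have hip : ∀ j, Integrable fun z => (ψ z • a z (U z)) j * tp j z := fun j =>
      hiB j _ (htp1 j) (htp2 j)
    have him : ∀ j, Integrable fun z => (ψ z • a z (U z)) j * tm j z := fun j =>
      hiB j _ (htm1 j) (htm2 j)
    have hip' := fun j => ((htp4 j _ (hgB j)).1).1 (hip j)
    have him' := fun j => ((htm4 j _ (hgB j)).1).1 (him j)
    -- the target side
    have e1 : ∫ z, ⟪a z (U₀ z), T z • ∇ ψ z + ψ z • Y z⟫ =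
        ∫ z, (⟪a z (U z), ∇ ψ z⟫ * T z + ⟪ψ z • a z (U z), Y z⟫) := by
      refine integral_congr_ae ?_
      filter_upwards [hUU] with z hz
      by_cases hzD : z ∈ D₀
      · rw [hz hzD, inner_add_right, inner_smul_right, inner_smul_right, real_inner_smul_left]
        ring
      · have h8 : z ∉ tsupport ψ := fun h => hzD (hψD.2.2 h)
        rw [image_eq_zero_of_notMem_tsupport h8, grad_eq_zero_of_notMem h8]
        simp
    have hs1 : Integrable fun z => ∑ j : Fin n, ((ψ z • a z (U z)) j * tp j z -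
        (ψ z • a z (U z)) j * tm j z) :=
      integrable_finsetSum _ fun j _ => (hip j).sub (him j)
    have hs2 : Integrable fun x => ∑ j : Fin n, ((ψ (f x) • a (f x) (U (f x))) j *
        max (k x j) 0 - (ψ (f x) • a (f x) (U (f x))) j * max (-(k x j)) 0) :=
      integrable_finsetSum _ fun j _ => (hip' j).sub (him' j)
    have e2 : ∫ z, (⟪a z (U z), ∇ ψ z⟫ * T z + ⟪ψ z • a z (U z), Y z⟫) =
        ∫ x, ⟪b x (v x), ∇ (fun x => ψ (f x) * φ x) x⟫ := by
      rw [integral_congr_ae hpt]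
      simp only [hinY, inner_sum' _ (k _)]
      rw [integral_add hiT hs1, integral_add hiT' hs2, (hT4 _ hgT).2]
      congr 1
      have g1 : ∀ j : Fin n, Integrable fun z => (ψ z • a z (U z)) j * tp j z -
        (ψ z • a z (U z)) j * tm j z := fun j => (hip j).sub (him j)
      have g2 : ∀ j : Fin n, Integrable fun x => (ψ (f x) • a (f x) (U (f x))) j *
        max (k x j) 0 - (ψ (f x) • a (f x) (U (f x))) j * max (-(k x j)) 0 :=
        fun j => (hip' j).sub (him' j)
      rw [integral_finsetSum _ fun j _ => g1 j, integral_finsetSum _ fun j _ => g2 j]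
      refine Finset.sum_congr rfl fun j _ => ?_
      rw [integral_sub (hip j) (him j), integral_sub (hip' j) (him' j), (htp4 j _ (hgB j)).2,
        (htm4 j _ (hgB j)).2]
    rw [e1, e2]
    exact key
  · -- the integral of `Y`
    have hmx : ∀ j : Fin n, Measurable fun x => max (k x j) 0 := fun j =>
      ((EuclideanSpace.proj (𝕜 := ℝ) j).continuous.measurable.comp hkm).max measurable_const
    have hmx' : ∀ j : Fin n, Measurable fun x => max (-(k x j)) 0 := fun j =>
      ((EuclideanSpace.proj (𝕜 := ℝ) j).continuous.measurable.comp hkm).neg.max measurable_const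
    have hb1 : ∀ᵐ x : E n, ∀ j : Fin n, |max (k x j) 0| ≤ C / c * Kφ * ‖fderiv ℝ f x‖ ^ (p - 1) ∧
        |max (-(k x j)) 0| ≤ C / c * Kφ * ‖fderiv ℝ f x‖ ^ (p - 1) := by
      filter_upwards [hkb] with x hx j
      have h1 : |k x j| ≤ ‖k x‖ := PiLp.norm_apply_le (k x) j
      rw [abs_of_nonneg (le_max_right _ _), abs_of_nonneg (le_max_right _ _)]
      exact ⟨max_le (((le_abs_self _).trans h1).trans hx) (by positivity),
        max_le (((neg_le_abs _).trans h1).trans hx) (by positivity)⟩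
    have hI1 : ∀ j : Fin n, Integrable fun x => max (k x j) 0 := fun j =>
      P.integrable (by linarith : (0 : ℝ) ≤ p - 1) (by linarith) (hmx j)
        (fun x hx => by simp [hk0 x hx]) (by filter_upwards [hb1] with x hx using (hx j).1)
    have hI2 : ∀ j : Fin n, Integrable fun x => max (-(k x j)) 0 := fun j =>
      P.integrable (by linarith : (0 : ℝ) ≤ p - 1) (by linarith) (hmx' j)
        (fun x hx => by simp [hk0 x hx]) (by filter_upwards [hb1] with x hx using (hx j).2)
    have h1p := fun j => htp4 j (fun _ => 1) measurable_const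
    have h1m := fun j => htm4 j (fun _ => 1) measurable_const
    simp only [one_mul] at h1p h1m
    have hI3 : ∀ j : Fin n, Integrable (tp j) := fun j => (h1p j).1.2 (hI1 j)
    have hI4 : ∀ j : Fin n, Integrable (tm j) := fun j => (h1m j).1.2 (hI2 j)
    have e1 : ∫ x, k x = ∫ x, ∑ j : Fin n, (max (k x j) 0 - max (-(k x j)) 0) •
        EuclideanSpace.single j (1 : ℝ) :=
      integral_congr_ae (Eventually.of_forall fun x => vec_sum (k x))
    have g1 : ∀ j : Fin n, Integrable fun z => (tp j z - tm j z) •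
      (EuclideanSpace.single j (1 : ℝ) : E n) := fun j => ((hI3 j).sub (hI4 j)).smul_const _
    have g2 : ∀ j : Fin n, Integrable fun x => (max (k x j) 0 - max (-(k x j)) 0) •
      (EuclideanSpace.single j (1 : ℝ) : E n) := fun j => ((hI1 j).sub (hI2 j)).smul_const _
    rw [e1, hY]
    show ∫ z, ∑ j, (tp j z - tm j z) • (EuclideanSpace.single j (1 : ℝ) : E n) = _
    rw [integral_finsetSum _ fun j _ => g1 j, integral_finsetSum _ fun j _ => g2 j]
    refine Finset.sum_congr rfl fun j _ => ?_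
    rw [integral_smul_const, integral_smul_const, integral_sub (hI3 j) (hI4 j),
      integral_sub (hI1 j) (hI2 j), (h1p j).2, (h1m j).2]

end Pool.Agent.Lib.MP_abd978_an.UN.H15
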