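import Pool.Agent.Lib.MP_abd978_an.UN.Interfaces

/-!
# Push-forwards with densities (tools for TYX)
-/

set_option autoImplicit false

open MeasureTheory Metric Set Filter Topology
open scoped Gradient RealInnerProductSpace NNReal ENNReal

namespace Pool.Agent.Lib.MP_abd978_an.UN.H15

variable {n : ℕ}

/-- the density of the push-forward of `h dx` -/
theorem push0 {f : E n → E n} (hf : Measurable f) {h : E n → ℝ} (hh : Measurable h)
    (h0 : ∀ x, 0 ≤ h x) (hint : Integrable h)
    (hac : ∀ N : Set (E n), MeasurableSet N → volume N = 0 → ∀ᵐ x, f x ∈ N → h x = 0) :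
    ∃ t : E n → ℝ, Measurable t ∧ (∀ z, 0 ≤ t z) ∧
      (∀ᵐ z : E n, Tendsto (fun r : ℝ => (∫⁻ x in f ⁻¹' closedBall z r, ENNReal.ofReal (h x)) /
        volume (closedBall z r)) (𝓝[>] 0) (𝓝 (ENNReal.ofReal (t z)))) ∧
      ∀ G : E n → ℝ, Measurable G → (Integrable (fun z => G z * t z) ↔
        Integrable fun x => G (f x) * h x) ∧ ∫ z, G z * t z = ∫ x, G (f x) * h x := by
  have hm : Measurable fun x => ENNReal.ofReal (h x) := hh.ennreal_ofReal
  set μh : Measure (E n) := volume.withDensity fun x => ENNReal.ofReal (h x) with hμh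
  have : IsFiniteMeasure μh := isFiniteMeasure_withDensity_ofReal hint.2
  set ν : Measure (E n) := μh.map f with hν
  have : IsFiniteMeasure ν := Measure.isFiniteMeasure_map μh f
  have hνs : ∀ s : Set (E n), MeasurableSet s →
      ν s = ∫⁻ x in f ⁻¹' s, ENNReal.ofReal (h x) := by
    intro s hs
    rw [hν, Measure.map_apply hf hs, hμh, withDensity_apply _ (hf hs)]
  have habs : ν ≪ volume := by
    refine Measure.AbsolutelyContinuous.mk fun s hs hs0 => ?_
    rw [hνs s hs, lintegral_eq_zero_iff hm]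
    refine (ae_restrict_iff' (hf hs)).2 ?_
    filter_upwards [hac s hs hs0] with x hx hxs
    rw [hx hxs]
    simp
  have hlt : ∀ᵐ z : E n, ν.rnDeriv volume z < ∞ := Measure.rnDeriv_lt_top ν volume
  have heq : volume.withDensity (ν.rnDeriv volume) = ν := Measure.withDensity_rnDeriv_eq _ _ habs
  have hlt' : ∀ᵐ x : E n, ENNReal.ofReal (h x) < ∞ :=
    Eventually.of_forall fun x => ENNReal.ofReal_lt_top
  refine ⟨fun z => (ν.rnDeriv volume z).toReal, (Measure.measurable_rnDeriv _ _).ennreal_toReal,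
    fun z => ENNReal.toReal_nonneg, ?_, ?_⟩
  · filter_upwards [Besicovitch.ae_tendsto_rnDeriv ν volume, hlt] with z hz hz'
    rw [ENNReal.ofReal_toReal hz'.ne]
    refine hz.congr fun r => ?_
    rw [hνs _ measurableSet_closedBall]
  · intro G hG
    have h1 : Integrable G ν ↔ Integrable fun z => G z * (ν.rnDeriv volume z).toReal := by
      rw [← heq, integrable_withDensity_iff_integrable_smul' (Measure.measurable_rnDeriv _ _) hlt]
      simp only [heq, smul_eq_mul, mul_comm]
    have h2 : Integrable G ν ↔ Integrable fun x => G (f x) * h x := by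
      rw [hν, integrable_map_measure hG.aestronglyMeasurable hf.aemeasurable, hμh,
        integrable_withDensity_iff_integrable_smul' hm hlt']
      refine integrable_congr (Eventually.of_forall fun x => ?_)
      show (ENNReal.ofReal (h x)).toReal • G (f x) = G (f x) * h x
      rw [ENNReal.toReal_ofReal (h0 x), smul_eq_mul, mul_comm]
    refine ⟨h1.symm.trans h2, ?_⟩
    have h3 : ∫ z, G z ∂ν = ∫ z, G z * (ν.rnDeriv volume z).toReal := by
      conv_lhs => rw [← heq]
      rw [integral_withDensity_eq_integral_toReal_smul (Measure.measurable_rnDeriv _ _) hlt]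
      simp only [smul_eq_mul, mul_comm]
    have h4 : ∫ z, G z ∂ν = ∫ x, G (f x) * h x := by
      rw [hν, integral_map hf.aemeasurable hG.aestronglyMeasurable, hμh,
        integral_withDensity_eq_integral_toReal_smul hm hlt']
      refine integral_congr_ae (Eventually.of_forall fun x => ?_)
      show (ENNReal.ofReal (h x)).toReal • G (f x) = G (f x) * h x
      rw [ENNReal.toReal_ofReal (h0 x), smul_eq_mul, mul_comm]
    rw [← h3, h4]

/-- restriction of the density to a ball -/
theorem push1 {f : E n → E n} (hf : Measurable f) {h : E n → ℝ} (hh : Measurable h)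
    (h0 : ∀ x, 0 ≤ h x) (hint : Integrable h) {R : ℝ} (hR : ∀ x, h x ≠ 0 → ‖f x‖ < R)
    (hac : ∀ N : Set (E n), MeasurableSet N → volume N = 0 → ∀ᵐ x, f x ∈ N → h x = 0) :
    ∃ t : E n → ℝ, Measurable t ∧ (∀ z, 0 ≤ t z) ∧ (∀ z, R ≤ ‖z‖ → t z = 0) ∧
      (∀ᵐ z : E n, ∀ φ : ℝ → ℝ≥0∞, ∀ L : ℝ≥0∞, Tendsto φ (𝓝[>] 0) (𝓝 L) →
        (∀ r : ℝ, 0 < r → (∫⁻ x in f ⁻¹' closedBall z r, ENNReal.ofReal (h x)) /
        volume (closedBall z r) ≤ φ r) → ENNReal.ofReal (t z) ≤ L) ∧
      ∀ G : E n → ℝ, Measurable G → (Integrable (fun z => G z * t z) ↔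
        Integrable fun x => G (f x) * h x) ∧ ∫ z, G z * t z = ∫ x, G (f x) * h x := by
  obtain ⟨t, h1, h2, h3, h4⟩ := push0 hf hh h0 hint hac
  refine ⟨(ball (0 : E n) R).indicator t, h1.indicator measurableSet_ball,
    fun z => indicator_nonneg (fun z _ => h2 z) z, fun z hz => ?_, ?_, ?_⟩
  · refine indicator_of_notMem ?_ _
    rw [mem_ball_zero_iff, not_lt]
    exact hz
  · filter_upwards [h3] with z hz φ L hφ hle
    refine le_trans (ENNReal.ofReal_le_ofReal (indicator_le_self' (fun z _ => h2 z) z)) ?_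
    refine le_of_tendsto_of_tendsto hz hφ ?_
    filter_upwards [self_mem_nhdsWithin] with r hr
    exact hle r hr
  · intro G hG
    have h5 := h4 (fun z => (ball (0 : E n) R).indicator G z) (hG.indicator measurableSet_ball)
    have h6 : (fun z => (ball (0 : E n) R).indicator G z * t z) =
        fun z => G z * (ball (0 : E n) R).indicator t z := by
      funext z
      by_cases hz : z ∈ ball (0 : E n) R
      · simp [indicator_of_mem hz]
      · simp [indicator_of_notMem hz]
    have h7 : (fun x => (ball (0 : E n) R).indicator G (f x) * h x) =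
        fun x => G (f x) * h x := by
      funext x
      by_cases hx : h x = 0
      · simp [hx]
      · have h8 : f x ∈ ball (0 : E n) R := by
          rw [mem_ball_zero_iff]
          exact hR x hx
        simp [indicator_of_mem h8]
    simp only [h6, h7] at h5
    exact h5

/-- The common hypotheses: `w = ‖Df‖` -/
structure PD (p : ℝ) (f : E n → E n) (w : E n → ℝ) (K : Set (E n)) (R : ℝ) (C : ℝ≥0) :
    Prop where
  hp : 1 < p
  hf : Measurable f
  hw : Measurable w
  w0 : ∀ x, 0 ≤ w x
  hK : IsCompact K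
  hR : 0 < R
  hfK : ∀ x ∈ K, ‖f x‖ < R
  ed : ∀ g : E n → ℝ≥0∞, Measurable g →
    ∫⁻ x in K, g (f x) * ENNReal.ofReal (w x ^ p) ≤ C * ∫⁻ z, g z

namespace PD

variable {p : ℝ} {f : E n → E n} {w : E n → ℝ} {K : Set (E n)} {R : ℝ} {C : ℝ≥0}

theorem set_le (H : PD p f w K R C) {s : Set (E n)} (hs : MeasurableSet s) :
    ∫⁻ x in K ∩ f ⁻¹' s, ENNReal.ofReal (w x ^ p) ≤ C * volume s := by
  have h1 := H.ed (s.indicator 1) (measurable_one.indicator hs)
  rw [lintegral_indicator_one hs] at h1
  refine le_trans (le_of_eq ?_) h1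
  rw [inter_comm, ← Measure.restrict_restrict (H.hf hs), ← lintegral_indicator (H.hf hs)]
  refine lintegral_congr fun x => ?_
  by_cases hx : f x ∈ s
  · rw [indicator_of_mem (show x ∈ f ⁻¹' s from hx), indicator_of_mem hx]
    simp
  · rw [indicator_of_notMem (show x ∉ f ⁻¹' s from hx), indicator_of_notMem hx]
    simp

theorem meas_pow (H : PD p f w K R C) (q : ℝ) : Measurable fun x => ENNReal.ofReal (w x ^ q) :=
  (H.hw.pow_const q).ennreal_ofReal

theorem ae_zero (H : PD p f w K R C) {N : Set (E n)} (hN : MeasurableSet N)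
    (h0 : volume N = 0) : ∀ᵐ x : E n, x ∈ K → f x ∈ N → w x = 0 := by
  have h1 := H.set_le hN
  rw [h0, mul_zero, nonpos_iff_eq_zero, lintegral_eq_zero_iff (H.meas_pow p),
    EventuallyEq, ae_restrict_iff' (H.hK.measurableSet.inter (H.hf hN))] at h1
  filter_upwards [h1] with x hx hxK hxN
  have h2 := hx ⟨hxK, hxN⟩
  by_contra hne
  have h3 : 0 < w x ^ p := Real.rpow_pos_of_pos (lt_of_le_of_ne (H.w0 x) (Ne.symm hne)) p
  have h4 : (0 : ℝ≥0∞) < ENNReal.ofReal (w x ^ p) := ENNReal.ofReal_pos.2 h3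
  exact h4.ne' h2

theorem lintegral_lt_top (H : PD p f w K R C) : ∫⁻ x in K, ENNReal.ofReal (w x ^ p) < ∞ := by
  have h1 := H.set_le (measurableSet_ball (x := (0 : E n)) (ε := R))
  have h2 : K ∩ f ⁻¹' ball (0 : E n) R = K := by
    refine inter_eq_left.2 fun x hx => ?_
    rw [mem_preimage, mem_ball_zero_iff]
    exact H.hfK x hx
  rw [h2] at h1
  exact h1.trans_lt (ENNReal.mul_lt_top ENNReal.coe_lt_top measure_ball_lt_top)

theorem ofReal_rpow_le (H : PD p f w K R C) {q : ℝ} (hq0 : 0 ≤ q) (hq : q ≤ p) (x : E n) :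
    ENNReal.ofReal (w x ^ q) ≤ 1 + ENNReal.ofReal (w x ^ p) := by
  rcases le_total (w x) 1 with h | h
  · refine le_trans ?_ le_self_add
    rw [← ENNReal.ofReal_one]
    exact ENNReal.ofReal_le_ofReal (Real.rpow_le_one (H.w0 x) h hq0)
  · refine le_trans ?_ le_add_self
    exact ENNReal.ofReal_le_ofReal (Real.rpow_le_rpow_of_exponent_le h hq)

/-- integrability of functions bounded by powers of `w` -/
theorem integrable (H : PD p f w K R C) {q M : ℝ} (hq0 : 0 ≤ q) (hq : q ≤ p)
    {h : E n → ℝ} (hh : Measurable h) (hK0 : ∀ x, x ∉ K → h x = 0)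
    (hM : ∀ᵐ x : E n, |h x| ≤ M * w x ^ q) : Integrable h := by
  refine ⟨hh.aestronglyMeasurable, ?_⟩
  have hM' : ∀ᵐ x : E n, ‖h x‖ₑ ≤ K.indicator (fun x => ENNReal.ofReal |M| *
      (1 + ENNReal.ofReal (w x ^ p))) x := by
    filter_upwards [hM] with x hx
    by_cases hxK : x ∈ K
    · rw [indicator_of_mem hxK, ← ofReal_norm, Real.norm_eq_abs]
      have h1 : |h x| ≤ |M| * w x ^ q :=
        hx.trans (mul_le_mul_of_nonneg_right (le_abs_self M) (Real.rpow_nonneg (H.w0 x) q))
      refine (ENNReal.ofReal_le_ofReal h1).trans ?_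
      rw [ENNReal.ofReal_mul (abs_nonneg M)]
      gcongr
      exact H.ofReal_rpow_le hq0 hq x
    · rw [hK0 x hxK]
      simp
  refine (lintegral_mono_ae hM').trans_lt ?_
  rw [lintegral_indicator H.hK.measurableSet, lintegral_const_mul' _ _ ENNReal.ofReal_ne_top,
    lintegral_add_left measurable_const]
  refine ENNReal.mul_lt_top ENNReal.ofReal_lt_top (ENNReal.add_lt_top.2 ⟨?_, H.lintegral_lt_top⟩)
  simp only [lintegral_const, one_mul, Measure.restrict_apply_univ]
  exact H.hK.measure_lt_top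

theorem ac (H : PD p f w K R C) {q M : ℝ} (hq0 : 0 < q)
    {h : E n → ℝ} (hK0 : ∀ x, x ∉ K → h x = 0)
    (hM : ∀ᵐ x : E n, |h x| ≤ M * w x ^ q) (N : Set (E n)) (hN : MeasurableSet N)
    (h0 : volume N = 0) : ∀ᵐ x, f x ∈ N → h x = 0 := by
  filter_upwards [hM, H.ae_zero hN h0] with x hx hx2 hxN
  by_cases hxK : x ∈ K
  · rw [hx2 hxK hxN, Real.zero_rpow hq0.ne', mul_zero] at hx
    exact abs_nonpos_iff.1 hx
  · exact hK0 x hxK

/-- bounded densities -/
theorem pushT (H : PD p f w K R C) {M : ℝ} (hM0 : 0 ≤ M) {h : E n → ℝ} (hh : Measurable h)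
    (h0 : ∀ x, 0 ≤ h x) (hK0 : ∀ x, x ∉ K → h x = 0) (hM : ∀ᵐ x : E n, h x ≤ M * w x ^ p) :
    ∃ t : E n → ℝ, Measurable t ∧ (∀ z, |t z| ≤ M * C) ∧ (∀ z, R ≤ ‖z‖ → t z = 0) ∧
      ∀ G : E n → ℝ, Measurable G → (Integrable (fun z => G z * t z) ↔
        Integrable fun x => G (f x) * h x) ∧ ∫ z, G z * t z = ∫ x, G (f x) * h x := by
  have hp0 : 0 < p := by linarith [H.hp]
  have hM' : ∀ᵐ x : E n, |h x| ≤ M * w x ^ p := by
    filter_upwards [hM] with x hx
    rwa [abs_of_nonneg (h0 x)]
  have hR : ∀ x, h x ≠ 0 → ‖f x‖ < R := by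
    intro x hx
    by_cases hxK : x ∈ K
    · exact H.hfK x hxK
    · exact absurd (hK0 x hxK) hx
  obtain ⟨t, h1, h2, h3, h4, h5⟩ := push1 H.hf hh h0 (H.integrable hp0.le le_rfl hh hK0 hM') hR
    (H.ac hp0 hK0 hM')
  have hMC : (0 : ℝ) ≤ M * C := by positivity
  refine ⟨fun z => min (t z) (M * C), h1.min measurable_const, fun z => ?_, fun z hz => ?_, ?_⟩
  · rw [abs_of_nonneg (le_min (h2 z) hMC)]
    exact min_le_right _ _
  · simp only [h3 z hz]
    exact min_eq_left hMC
  · have h6 : ∀ᵐ z : E n, min (t z) (M * C) = t z := by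
      filter_upwards [h4] with z hz
      refine min_eq_left ?_
      have h7 := hz (fun _ => ENNReal.ofReal (M * C)) _ tendsto_const_nhds ?_
      · exact (ENNReal.ofReal_le_ofReal_iff hMC).1 h7
      · intro r hr
        refine ENNReal.div_le_of_le_mul ?_
        calc ∫⁻ x in f ⁻¹' closedBall z r, ENNReal.ofReal (h x)
            ≤ ∫⁻ x in f ⁻¹' closedBall z r, K.indicator (fun x => ENNReal.ofReal M *
              ENNReal.ofReal (w x ^ p)) x := by
              refine lintegral_mono_ae (ae_restrict_of_ae ?_)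
              filter_upwards [hM] with x hx
              by_cases hxK : x ∈ K
              · rw [indicator_of_mem hxK, ← ENNReal.ofReal_mul hM0]
                exact ENNReal.ofReal_le_ofReal hx
              · rw [hK0 x hxK]
                simp
          _ = ENNReal.ofReal M * ∫⁻ x in K ∩ f ⁻¹' closedBall z r, ENNReal.ofReal (w x ^ p) := by
              rw [lintegral_indicator H.hK.measurableSet, Measure.restrict_restrict
                H.hK.measurableSet, lintegral_const_mul' _ _ ENNReal.ofReal_ne_top]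
          _ ≤ ENNReal.ofReal M * (C * volume (closedBall z r)) := by
              gcongr
              exact H.set_le measurableSet_closedBall
          _ = ENNReal.ofReal (M * C) * volume (closedBall z r) := by
              rw [ENNReal.ofReal_mul hM0, ENNReal.ofReal_coe_nnreal, mul_assoc]
    intro G hG
    have h8 : (fun z => G z * min (t z) (M * C)) =ᵐ[volume] fun z => G z * t z := by
      filter_upwards [h6] with z hz
      rw [hz]
    rw [integrable_congr h8, integral_congr_ae h8]
    exact h5 G hG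

/-- densities in `L^p` -/
theorem pushY (H : PD p f w K R C) {M : ℝ} (hM0 : 0 ≤ M) {h : E n → ℝ} (hh : Measurable h)
    (h0 : ∀ x, 0 ≤ h x) (hK0 : ∀ x, x ∉ K → h x = 0)
    (hM : ∀ᵐ x : E n, h x ≤ M * w x ^ (p - 1)) :
    ∃ t : E n → ℝ, Measurable t ∧ MemLp t (ENNReal.ofReal p) volume ∧
      (∀ z, R ≤ ‖z‖ → t z = 0) ∧
      ∀ G : E n → ℝ, Measurable G → (Integrable (fun z => G z * t z) ↔
        Integrable fun x => G (f x) * h x) ∧ ∫ z, G z * t z = ∫ x, G (f x) * h x := by
  have hp := H.hp
  have hp0 : 0 < p := by linarith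
  have hp1 : 0 < p - 1 := by linarith
  have hM' : ∀ᵐ x : E n, |h x| ≤ M * w x ^ (p - 1) := by
    filter_upwards [hM] with x hx
    rwa [abs_of_nonneg (h0 x)]
  have hR : ∀ x, h x ≠ 0 → ‖f x‖ < R := by
    intro x hx
    by_cases hxK : x ∈ K
    · exact H.hfK x hxK
    · exact absurd (hK0 x hxK) hx
  obtain ⟨t, h1, h2, h3, h4, h5⟩ := push1 H.hf hh h0
    (H.integrable hp1.le (by linarith) hh hK0 hM') hR (H.ac hp1 hK0 hM')
  refine ⟨t, h1, ⟨h1.aestronglyMeasurable, ?_⟩, h3, h5⟩
  -- the push-forward of Lebesgue measure on `K`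
  have : IsFiniteMeasure (volume.restrict K) := ⟨by
    rw [Measure.restrict_apply_univ]
    exact H.hK.measure_lt_top⟩
  set κ : Measure (E n) := (volume.restrict K).map f with hκ
  have : IsFiniteMeasure κ := Measure.isFiniteMeasure_map _ f
  set A : ℝ≥0∞ := ENNReal.ofReal M * (C : ℝ≥0∞) ^ ((p - 1) / p) with hA
  have hAtop : A ≠ ∞ := ENNReal.mul_ne_top ENNReal.ofReal_ne_top
    (ENNReal.rpow_ne_top_of_nonneg (by positivity) ENNReal.coe_ne_top)
  have key : ∀ᵐ z : E n, ENNReal.ofReal (t z) ≤ A * (κ.rnDeriv volume z) ^ (1 / p) := by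
    filter_upwards [h4, Besicovitch.ae_tendsto_rnDeriv κ volume] with z hz hκz
    refine hz (fun r => A * (κ (closedBall z r) / volume (closedBall z r)) ^ (1 / p)) _
      (ENNReal.Tendsto.const_mul ((ENNReal.continuous_rpow_const.tendsto _).comp hκz)
        (Or.inr hAtop)) ?_
    intro r hr
    have hV0 : volume (closedBall z r) ≠ 0 := (measure_closedBall_pos _ _ hr).ne'
    have hVt : volume (closedBall z r) ≠ ∞ := measure_closedBall_lt_top.ne
    set V : ℝ≥0∞ := volume (closedBall z r) with hV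
    refine ENNReal.div_le_of_le_mul ?_
    have hs : MeasurableSet (K ∩ f ⁻¹' closedBall z r) :=
      H.hK.measurableSet.inter (H.hf measurableSet_closedBall)
    have hκs : κ (closedBall z r) = volume (K ∩ f ⁻¹' closedBall z r) := by
      rw [hκ, Measure.map_apply H.hf measurableSet_closedBall,
        Measure.restrict_apply (H.hf measurableSet_closedBall), inter_comm]
    have hq : (p / (p - 1)).HolderConjugate p := by
      rw [Real.holderConjugate_iff]
      constructor
      · rw [lt_div_iff₀ hp1]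
        linarith
      · field_simp
        ring
    calc ∫⁻ x in f ⁻¹' closedBall z r, ENNReal.ofReal (h x)
        ≤ ∫⁻ x in f ⁻¹' closedBall z r, K.indicator (fun x => ENNReal.ofReal M *
          ENNReal.ofReal (w x ^ (p - 1))) x := by
          refine lintegral_mono_ae (ae_restrict_of_ae ?_)
          filter_upwards [hM] with x hx
          by_cases hxK : x ∈ K
          · rw [indicator_of_mem hxK, ← ENNReal.ofReal_mul hM0]
            exact ENNReal.ofReal_le_ofReal hx
          · rw [hK0 x hxK]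
            simp
      _ = ENNReal.ofReal M * ∫⁻ x in K ∩ f ⁻¹' closedBall z r,
            ENNReal.ofReal (w x ^ (p - 1)) * 1 := by
          rw [lintegral_indicator H.hK.measurableSet, Measure.restrict_restrict
            H.hK.measurableSet, lintegral_const_mul' _ _ ENNReal.ofReal_ne_top]
          simp
      _ ≤ ENNReal.ofReal M * ((∫⁻ x in K ∩ f ⁻¹' closedBall z r,
            ENNReal.ofReal (w x ^ (p - 1)) ^ (p / (p - 1))) ^ (1 / (p / (p - 1))) *
            (∫⁻ x in K ∩ f ⁻¹' closedBall z r, (1 : ℝ≥0∞) ^ p) ^ (1 / p)) := by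
          gcongr
          exact ENNReal.lintegral_mul_le_Lp_mul_Lq _ hq (H.meas_pow (p - 1)).aemeasurable
            aemeasurable_const
      _ ≤ ENNReal.ofReal M * ((C * V) ^ ((p - 1) / p) * (κ (closedBall z r)) ^ (1 / p)) := by
          have e1 : (1 / (p / (p - 1))) = (p - 1) / p := by
            field_simp
          have e2 : ∀ x, ENNReal.ofReal (w x ^ (p - 1)) ^ (p / (p - 1)) =
              ENNReal.ofReal (w x ^ p) := by
            intro x
            rw [ENNReal.ofReal_rpow_of_nonneg (Real.rpow_nonneg (H.w0 x) _) (by positivity),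
              ← Real.rpow_mul (H.w0 x)]
            congr 2
            field_simp
          rw [e1]
          simp only [e2, ENNReal.one_rpow, lintegral_one, Measure.restrict_apply_univ]
          rw [← hκs]
          gcongr
          exact H.set_le measurableSet_closedBall
      _ = A * (κ (closedBall z r) / V) ^ (1 / p) * V := by
          rw [ENNReal.mul_rpow_of_nonneg _ _ (by positivity : (0 : ℝ) ≤ (p - 1) / p),
            ENNReal.div_rpow_of_nonneg _ _ (by positivity : (0 : ℝ) ≤ 1 / p), hA]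
          have e3 : V ^ ((p - 1) / p) = (V ^ (1 / p))⁻¹ * V := by
            conv_rhs => rw [← ENNReal.rpow_neg, ← ENNReal.rpow_one V, ← ENNReal.rpow_mul]
            rw [← ENNReal.rpow_add _ _ hV0 hVt]
            congr 1
            field_simp
            ring
          rw [e3, ENNReal.div_eq_inv_mul]
          ring
  have hpos : ENNReal.ofReal p ≠ 0 := by simpa using hp0
  rw [eLpNorm_lt_top_iff_lintegral_rpow_enorm_lt_top hpos ENNReal.ofReal_ne_top,
    ENNReal.toReal_ofReal hp0.le]
  have key2 : ∀ᵐ z : E n, ‖t z‖ₑ ^ p ≤ A ^ p * κ.rnDeriv volume z := by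
    filter_upwards [key] with z hz
    have e1 : ‖t z‖ₑ = ENNReal.ofReal (t z) := by
      rw [← ofReal_norm, Real.norm_eq_abs, abs_of_nonneg (h2 z)]
    rw [e1]
    refine (ENNReal.rpow_le_rpow hz hp0.le).trans (le_of_eq ?_)
    rw [ENNReal.mul_rpow_of_nonneg _ _ hp0.le, ← ENNReal.rpow_mul]
    congr 1
    rw [one_div, inv_mul_cancel₀ hp0.ne', ENNReal.rpow_one]
  refine (lintegral_mono_ae key2).trans_lt ?_
  rw [lintegral_const_mul' _ _ (ENNReal.rpow_ne_top_of_nonneg hp0.le hAtop)]
  refine ENNReal.mul_lt_top (ENNReal.rpow_ne_top_of_nonneg hp0.le hAtop).lt_top ?_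
  exact (Measure.lintegral_rnDeriv_le).trans_lt (measure_lt_top κ univ)

end PD

end Pool.Agent.Lib.MP_abd978_an.UN.H15
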